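import Mathlib
import Pool.Agent.R59.CircQ

set_option autoImplicit false

/-!
# The `k`-colourable graphs are described by finitely many circularly ordered graphs only for `k = 1`

Let `F` be a finite set of circularly ordered graphs describing the `k`-colourable graphs, `k ≥ 2`.

(1) A circularly ordered graph whose vertices can be split into `k` independent arcs is not in `F`:
it occurs in every circular ordering of a quasirandom `k`-partite graph.

(2) The circular complete graph `K_{(k q + 1) / q}` (vertices `0, …, k q`, adjacent if their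
circular distance is at least `q`) is not `k`-colourable, but if one vertex is removed from its
natural circular ordering, the others form `k` independent arcs. For large `q` it follows that no
member of `F` occurs in it.
-/

namespace Pool.Agent.Results.MP_c7ad22_co.OnlyEdgeless

open Finset Pool.Agent.R59.Circ

/-- The three elements `a, b, c` of `Fin n` are distinct and occur in this cyclic order in the
natural circular ordering `0, 1, …, n - 1` of `Fin n`. -/
def Cyc {n : ℕ} (a b c : Fin n) : Prop := (a < b ∧ b < c) ∨ (b < c ∧ c < a) ∨ (c < a ∧ a < b)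

/-- `H` is a graph on `0, …, m - 1` with the natural circular ordering; `G` is a graph with the
circular ordering given by the bijection `c`. The circularly ordered graph `H` occurs in `(G, c)`
if there is an injective map of its vertices which preserves adjacency, nonadjacency and the
cyclic order of all triples. -/
def Occurs {V : Type} {m n : ℕ} (H : SimpleGraph (Fin m)) (G : SimpleGraph V) (c : V ≃ Fin n) :
    Prop :=
  ∃ φ : Fin m → V, Function.Injective φ ∧ (∀ u v, H.Adj u v ↔ G.Adj (φ u) (φ v)) ∧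
    ∀ u v w, Cyc u v w ↔ Cyc (c (φ u)) (c (φ v)) (c (φ w))

/-- Some circular ordering of the vertices of `G` has no occurrence of a member of `F`. (Every
circularly ordered graph is isomorphic to one on `0, …, m - 1` with the natural ordering.) -/
def FreeOrderable (F : Set ((m : ℕ) × SimpleGraph (Fin m))) {V : Type} (G : SimpleGraph V) : Prop :=
  ∃ (n : ℕ) (c : V ≃ Fin n), ∀ p ∈ F, ¬ Occurs p.2 G c

/-- cyclic order of natural numbers -/
def CycN (a b c : ℕ) : Prop := (a < b ∧ b < c) ∨ (b < c ∧ c < a) ∨ (c < a ∧ a < b)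

/-- the vertices of `H` can be split into `k` independent arcs -/
def Conv (k : ℕ) {m : ℕ} (H : SimpleGraph (Fin m)) : Prop :=
  ∃ (s : Fin m → ℕ) (f : Fin m → Fin k), Function.Injective s ∧
    (∀ u v w, Cyc u v w ↔ CycN (s u) (s v) (s w)) ∧ (∀ u v, s u < s v → f u ≤ f v) ∧
    ∀ u v, H.Adj u v → f u ≠ f v

/-- the quasirandom `k`-partite graph -/
def QR (k N : ℕ) : SimpleGraph (Fin k × (Fin N → Bool)) where
  Adj p q := p.1 ≠ q.1 ∧ adjB p.2 q.2 = true
  symm := ⟨fun p q h => ⟨h.1.symm, by rw [adjB_comm]; exact h.2⟩⟩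
  loopless := ⟨fun p h => h.1 rfl⟩

lemma unavoidable (k : ℕ) {m : ℕ} (H : SimpleGraph (Fin m)) (hH : Conv k H) :
    ∃ (V : Type) (_ : Fintype V) (G : SimpleGraph V), G.Colorable k ∧
      ∀ (n : ℕ) (c : V ≃ Fin n), Occurs H G c := by
  classical
  rcases Nat.eq_zero_or_pos m with rfl | hm
  · refine ⟨Empty, inferInstance, ⊥, ⟨⟨fun x => x.elim, fun {a} => a.elim⟩⟩, fun n c => ?_⟩
    exact ⟨fun a => a.elim0, fun a => a.elim0, fun a => a.elim0, fun a => a.elim0⟩
  obtain ⟨s, f, hs, hcyc, hmono, hadj⟩ := hH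
  let L := k * m
  let N := 2 * L + 4 * m + m + 3
  let b := 2 ^ (N - L)
  have hb1 : 1 ≤ b := Nat.one_le_two_pow
  have hNL : L ≤ N := by show L ≤ 2 * L + 4 * m + m + 3; omega
  have hkm : k * m * b ≤ 2 ^ N := by
    have h1 : k * m ≤ 2 ^ L := (Nat.lt_two_pow_self (n := k * m)).le
    calc k * m * b ≤ 2 ^ L * 2 ^ (N - L) := Nat.mul_le_mul_right _ h1
      _ = 2 ^ N := by rw [← pow_add]; congr 1; omega
  have hbig : 4 * (m : ℝ) * 16 ^ m * 2 ^ N < (b : ℝ) ^ 2 := by
    have h1 : (b : ℝ) ^ 2 = 2 ^ N * 2 ^ (4 * m + m + 3) := by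
      show (((2 ^ (N - L) : ℕ)) : ℝ) ^ 2 = _
      push_cast
      rw [← pow_mul, ← pow_add]
      congr 1
      show (2 * L + 4 * m + m + 3 - L) * 2 = 2 * L + 4 * m + m + 3 + (4 * m + m + 3)
      omega
    rw [h1]
    have h2 : (2 : ℝ) ^ (4 * m + m + 3) = 16 ^ m * (2 ^ m * 8) := by
      rw [pow_add, pow_add, pow_mul]
      norm_num
      ring
    rw [h2]
    have h3 : (m : ℝ) < 2 ^ m := by exact_mod_cast Nat.lt_two_pow_self (n := m)
    have h4 : (0 : ℝ) < 16 ^ m := by positivity
    have h5 : (0 : ℝ) < 2 ^ N := by positivity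
    have h6 : 4 * (m : ℝ) < 2 ^ m * 8 := by
      have : (0 : ℝ) ≤ m := Nat.cast_nonneg _
      nlinarith
    have h7 : 4 * (m : ℝ) * (16 ^ m * 2 ^ N) < 2 ^ m * 8 * (16 ^ m * 2 ^ N) :=
      mul_lt_mul_of_pos_right h6 (by positivity)
    nlinarith
  refine ⟨Fin k × (Fin N → Bool), inferInstance, QR k N,
    ⟨⟨fun p => p.1, fun {a b} h => h.1⟩⟩, fun n c => ?_⟩
  let ord : Fin k → (Fin N → Bool) → ℕ := fun i x => (c (i, x) : ℕ)
  have hinj : ∀ i, Function.Injective (ord i) := by
    intro i x y h
    have h1 : (i, x) = (i, y) := c.injective (Fin.ext h)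
    exact (Prod.ext_iff.1 h1).2
  have hfull : ∀ i, (seg ord i 0 n).card = 2 ^ N := by
    intro i
    have : seg ord i 0 n = univ := by
      ext x
      simp only [seg, mem_filter, mem_univ, true_and, iff_true]
      exact ⟨Nat.zero_le _, (c (i, x)).2⟩
    rw [this, card_univ]
    simp
  obtain ⟨σ, τ, hσ, -, hτ, -, hseg⟩ := separate ord hinj (m * b) (by nlinarith) n k univ 0
    (by simp) (Nat.zero_le _) (by
      intro i _
      rw [hfull]
      nlinarith)
  have hsplit : ∀ j : Fin k, ∃ τ' : ℕ → ℕ, Monotone τ' ∧ (∀ l, τ j.castSucc ≤ τ' l) ∧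
      (∀ l, τ' l ≤ τ j.succ) ∧ ∀ l < m, b ≤ (seg ord (σ j) (τ' l) (τ' (l + 1))).card := fun j =>
    split_seg ord hinj b hb1 (σ j) (τ j.succ) m (τ j.castSucc) (hτ (Fin.castSucc_lt_succ).le)
      (hseg j)
  choose τ' h1 h2 h3 h4 using hsplit
  let rk : Fin m → ℕ := fun a => (univ.filter (fun b => s b < s a)).card
  have hrk : ∀ a, rk a < m := by
    intro a
    have h5 : (univ.filter (fun b => s b < s a)) ⊆ univ.erase a := by
      intro b hb
      rw [mem_erase]
      refine ⟨fun h => ?_, mem_univ _⟩
      subst h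
      exact lt_irrefl _ (mem_filter.1 hb).2
    have h6 := card_le_card h5
    rw [card_erase_of_mem (mem_univ _), card_univ, Fintype.card_fin] at h6
    show (univ.filter (fun b => s b < s a)).card < m
    omega
  have hrk_lt : ∀ a b, s a < s b → rk a < rk b := by
    intro a b hab
    refine card_lt_card ?_
    rw [ssubset_iff_of_subset (by
      intro c hc
      rw [mem_filter] at hc ⊢
      exact ⟨mem_univ _, hc.2.trans hab⟩)]
    exact ⟨a, by simp [hab], by simp⟩
  obtain ⟨x, hx1, hx2⟩ := embed m
    (fun a => seg ord (σ (f a)) (τ' (f a) (rk a)) (τ' (f a) (rk a + 1)))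
    (fun a b => decide (H.Adj a b)) (b : ℝ) (by exact_mod_cast hb1) hbig
    (fun a => by exact_mod_cast h4 (f a) (rk a) (hrk a))
  have hx1' : ∀ a, τ' (f a) (rk a) ≤ ord (σ (f a)) (x a) ∧
      ord (σ (f a)) (x a) < τ' (f a) (rk a + 1) := by
    intro a
    have := hx1 a
    simpa [seg] using this
  have hlt : ∀ a b, s a < s b → ord (σ (f a)) (x a) < ord (σ (f b)) (x b) := by
    intro a b hab
    have e1 := (hx1' a).2
    have e2 := (hx1' b).1
    rcases (hmono a b hab).lt_or_eq with hf | hf
    · have e3 := h3 (f a) (rk a + 1)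
      have e4 := h2 (f b) (rk b)
      have e5 : τ (f a).succ ≤ τ (f b).castSucc := hτ (by
        rw [Fin.le_def]
        have := Fin.lt_def.1 hf
        simpa using this)
      omega
    · have e3 : τ' (f a) (rk a + 1) ≤ τ' (f a) (rk b) := h1 (f a) (hrk_lt a b hab)
      rw [← hf] at e2
      rw [← hf]
      omega
  have hlt' : ∀ a b, s a < s b ↔ c (σ (f a), x a) < c (σ (f b), x b) := by
    intro a b
    constructor
    · exact fun h => Fin.lt_def.2 (hlt a b h)
    · intro h
      rcases lt_trichotomy (s a) (s b) with h5 | h5 | h5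
      · exact h5
      · have := hs h5
        subst this
        exact absurd h (lt_irrefl _)
      · exact absurd (Fin.lt_def.2 (hlt b a h5)) (not_lt.2 h.le)
  refine ⟨fun a => (σ (f a), x a), ?_, ?_, ?_⟩
  · intro a b hab
    by_contra hne
    have hne' : s a ≠ s b := fun h => hne (hs h)
    rcases lt_or_gt_of_ne hne' with h | h
    · have := (hlt' a b).1 h
      simp only at hab
      rw [hab] at this
      exact lt_irrefl _ this
    · have := (hlt' b a).1 h
      simp only at hab
      rw [hab] at this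
      exact lt_irrefl _ this
  · intro u v
    constructor
    · intro huv
      refine ⟨fun h => hadj u v huv (hσ h), ?_⟩
      show adjB (x u) (x v) = true
      rcases lt_trichotomy u v with h | h | h
      · rw [hx2 u v h]; simpa using huv
      · exact absurd h huv.ne
      · rw [adjB_comm, hx2 v u h]; simpa using huv.symm
    · rintro ⟨hne, had⟩
      have hne' : u ≠ v := fun h => hne (by rw [h])
      have had' : adjB (x u) (x v) = true := had
      rcases lt_or_gt_of_ne hne' with h | h
      · rw [hx2 u v h] at had'; simpa using had'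
      · rw [adjB_comm, hx2 v u h] at had'
        have : H.Adj v u := by simpa using had'
        exact this.symm
  · intro u v w
    rw [hcyc]
    unfold CycN Cyc
    rw [hlt' u v, hlt' v w, hlt' w u]

/-! ### The circular complete graph -/

/-- vertices `0, …, k q`; adjacent if the circular distance is at least `q` -/
def circ (k q : ℕ) (hq : 1 ≤ q) : SimpleGraph (Fin (k * q + 1)) where
  Adj i j := ((i : ℕ) + q ≤ j ∧ (j : ℕ) + q ≤ i + (k * q + 1)) ∨
    ((j : ℕ) + q ≤ i ∧ (i : ℕ) + q ≤ j + (k * q + 1))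
  symm := ⟨fun i j h => h.symm⟩
  loopless := ⟨fun i h => by omega⟩

lemma circ_not_colorable (k q : ℕ) (hk : 2 ≤ k) (hq : 1 ≤ q) : ¬ (circ k q hq).Colorable k := by
  rintro ⟨col⟩
  set n := k * q + 1 with hn
  have hn0 : 0 < n := by omega
  let c : ℕ → Fin k := fun a => col ⟨a % n, Nat.mod_lt _ hn0⟩
  have hne : ∀ a d, q ≤ d → d + q ≤ n → c a ≠ c (a + d) := by
    intro a d h1 h2
    apply col.valid
    have h3 : a % n < n := Nat.mod_lt _ hn0
    have h4 : (a + d) % n = (a % n + d) % n := by rw [Nat.mod_add_mod]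
    rcases Nat.lt_or_ge (a % n + d) n with h5 | h5
    · rw [Nat.mod_eq_of_lt h5] at h4
      left
      show a % n + q ≤ (a + d) % n ∧ (a + d) % n + q ≤ a % n + n
      omega
    · have h6 : (a % n + d - n) % n = a % n + d - n := Nat.mod_eq_of_lt (by omega)
      rw [Nat.mod_eq_sub_mod h5, h6] at h4
      right
      show (a + d) % n + q ≤ a % n ∧ a % n + q ≤ (a + d) % n + n
      omega
  have hper : ∀ a, c (a + n) = c a := by
    intro a
    simp only [c, Nat.add_mod_right]
  have hkq : ∀ r, 1 ≤ r → r + 1 ≤ k → q ≤ r * q ∧ r * q + q ≤ n := by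
    intro r h1 h2
    constructor
    · nlinarith
    · have : (r + 1) * q ≤ k * q := Nat.mul_le_mul_right _ h2
      have e : (r + 1) * q = r * q + q := by ring
      omega
  have hstep : ∀ a, c (a + k * q) = c a := by
    intro a
    let g : Fin k → Fin k := fun j => c (a + j * q)
    have hg : Function.Injective g := by
      intro i j hij
      by_contra hne'
      have key : ∀ i j : Fin k, i < j → g i ≠ g j := by
        intro i j hlt
        have hlt' := Fin.lt_def.1 hlt
        have hj := j.2
        obtain ⟨e1, e2⟩ := hkq ((j : ℕ) - i) (by omega) (by omega)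
        have e3 := hne (a + i * q) (((j : ℕ) - i) * q) e1 e2
        have e4 : a + i * q + ((j : ℕ) - i) * q = a + j * q := by
          rw [Nat.sub_mul]
          have : (i : ℕ) * q ≤ j * q := Nat.mul_le_mul_right _ hlt'.le
          omega
        rw [e4] at e3
        exact e3
      rcases lt_or_gt_of_ne hne' with h | h
      · exact key i j h hij
      · exact key j i h hij.symm
    obtain ⟨j, hj⟩ := (Finite.injective_iff_surjective.1 hg) (c (a + k * q))
    have hj' : c (a + j * q) = c (a + k * q) := hj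
    rcases Nat.eq_zero_or_pos (j : ℕ) with h0 | hpos
    · rw [← hj', h0]; simp
    · exfalso
      have hjk := j.2
      obtain ⟨e1, e2⟩ := hkq (k - j) (by omega) (by omega)
      have e3 := hne (a + j * q) ((k - j) * q) e1 e2
      have e4 : a + j * q + (k - j) * q = a + k * q := by
        rw [Nat.sub_mul]
        have : (j : ℕ) * q ≤ k * q := Nat.mul_le_mul_right _ hjk.le
        omega
      rw [e4] at e3
      exact e3 hj'
  have hsucc : ∀ a, c (a + 1) = c a := by
    intro a
    rw [← hstep (a + 1), ← hper a]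
    congr 1
    omega
  have hconst : ∀ a, c a = c 0 := by
    intro a
    induction a with
    | zero => rfl
    | succ a ih => rw [hsucc, ih]
  refine hne 0 q le_rfl ?_ ?_
  · have : 2 * q ≤ k * q := Nat.mul_le_mul_right _ hk
    omega
  · rw [zero_add, hconst q]

/-- a circularly ordered graph with few vertices which occurs in the natural ordering of the
circular complete graph splits into `k` independent arcs -/
lemma conv_of_occurs (k q : ℕ) (hk : 2 ≤ k) (hq : 1 ≤ q) {m : ℕ} (H : SimpleGraph (Fin m))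
    (hm : m < k * q + 1) (h : Occurs H (circ k q hq) (Equiv.refl _)) : Conv k H := by
  obtain ⟨φ, hφ, hadj, hcyc⟩ := h
  obtain ⟨w, hw⟩ : ∃ w, ∀ a, φ a ≠ w := by
    by_contra hcon
    push Not at hcon
    have hsurj : Function.Surjective φ := hcon
    have := Fintype.card_le_of_surjective φ hsurj
    simp at this
    omega
  have hw' : ∀ a, (φ a : ℕ) ≠ w := fun a h => hw a (Fin.ext h)
  let s : Fin m → ℕ := fun a => if (w : ℕ) < φ a then (φ a : ℕ) - w - 1 else (φ a : ℕ) + (k * q + 1) - w - 1
  have hs : ∀ a, ((w : ℕ) < φ a ∧ s a = (φ a : ℕ) - w - 1) ∨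
      ((φ a : ℕ) < w ∧ s a = (φ a : ℕ) + (k * q + 1) - w - 1) := by
    intro a
    simp only [s]
    have := hw' a
    split_ifs with h1
    · left; exact ⟨h1, rfl⟩
    · right; exact ⟨by omega, rfl⟩
  have hslt : ∀ a, s a < k * q := by
    intro a
    have h1 := (φ a).2
    have h2 := w.2
    rcases hs a with ⟨h3, h4⟩ | ⟨h3, h4⟩ <;> omega
  refine ⟨s, fun a => ⟨s a / q, ?_⟩, ?_, ?_, ?_, ?_⟩
  · rw [Nat.div_lt_iff_lt_mul (by omega)]
    exact hslt a
  · intro a b hab
    apply hφ
    apply Fin.ext
    have h1 := (φ a).2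
    have h2 := (φ b).2
    rcases hs a with ⟨h3, h4⟩ | ⟨h3, h4⟩ <;> rcases hs b with ⟨h5, h6⟩ | ⟨h5, h6⟩ <;> omega
  · intro u v x
    rw [hcyc]
    unfold Cyc CycN
    simp only [Equiv.refl_apply, Fin.lt_def]
    have h1 := (φ u).2
    have h2 := (φ v).2
    have h3 := (φ x).2
    rcases hs u with ⟨h4, h5⟩ | ⟨h4, h5⟩ <;> rcases hs v with ⟨h6, h7⟩ | ⟨h6, h7⟩ <;>
      rcases hs x with ⟨h8, h9⟩ | ⟨h8, h9⟩ <;> omega
  · intro u v huv
    rw [Fin.le_def]
    exact Nat.div_le_div_right huv.le
  · intro u v huv heq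
    have h0 : s u / q = s v / q := by simpa using heq
    rw [hadj] at huv
    have hqpos : 0 < q := hq
    have e1 := Nat.div_add_mod (s u) q
    have e2 := Nat.div_add_mod (s v) q
    have e3 := Nat.mod_lt (s u) hqpos
    have e4 := Nat.mod_lt (s v) hqpos
    rw [h0] at e1
    have e5 : s u < s v + q := by omega
    have e6 : s v < s u + q := by omega
    have h1 := (φ u).2
    have h2 := (φ v).2
    have hkq : 2 * q ≤ k * q := Nat.mul_le_mul_right _ hk
    rcases huv with ⟨h7, h8⟩ | ⟨h7, h8⟩ <;>
      rcases hs u with ⟨h3, h4⟩ | ⟨h3, h4⟩ <;> rcases hs v with ⟨h5, h6⟩ | ⟨h5, h6⟩ <;> omega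

/-- The class of `k`-colourable graphs (`k ≥ 1`) is described by a finite set of circularly ordered
graphs if and only if `k = 1`. -/
theorem result : ∀ k : ℕ, 1 ≤ k →
    ((∃ F : Set ((m : ℕ) × SimpleGraph (Fin m)), F.Finite ∧
      ∀ (V : Type) [Finite V] (G : SimpleGraph V), G.Colorable k ↔ FreeOrderable F G) ↔ k = 1) := by
  classical
  intro k hk
  constructor
  · rintro ⟨F, hF, hdesc⟩
    by_contra hne
    have hk2 : 2 ≤ k := by omega
    obtain ⟨M, hM⟩ : ∃ M : ℕ, ∀ p ∈ F, p.1 ≤ M := by
      obtain ⟨M, hM⟩ := (hF.image (fun p => p.1)).bddAbove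
      exact ⟨M, fun p hp => hM ⟨p, hp, rfl⟩⟩
    have hnc := circ_not_colorable k (M + 1) hk2 (by omega)
    rw [hdesc] at hnc
    unfold FreeOrderable at hnc
    push Not at hnc
    obtain ⟨p, hp, hocc⟩ := hnc _ (Equiv.refl _)
    have hlt : p.1 < k * (M + 1) + 1 := by
      have := hM p hp
      nlinarith
    obtain ⟨V, hV, G, hG, hall⟩ := unavoidable k p.2
      (conv_of_occurs k (M + 1) hk2 (by omega) p.2 hlt hocc)
    obtain ⟨n, c, hc⟩ := (hdesc V G).1 hG
    exact hc p hp (hall n c)
  · rintro rfl
    refine ⟨{⟨2, ⊤⟩}, Set.finite_singleton _, fun V _ G => ?_⟩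
    constructor
    · rintro ⟨col⟩
      have : Fintype V := Fintype.ofFinite V
      refine ⟨Fintype.card V, Fintype.equivFin V, ?_⟩
      rintro p hp ⟨φ, _, h1, _⟩
      rw [Set.mem_singleton_iff] at hp
      subst hp
      have h2 : G.Adj (φ (0 : Fin 2)) (φ (1 : Fin 2)) := (h1 0 1).1 (by simp)
      exact col.valid h2 (Subsingleton.elim _ _)
    · rintro ⟨n, c, hc⟩
      have hno : ∀ u v, ¬ G.Adj u v := by
        intro u v huv
        apply hc ⟨2, ⊤⟩ (Set.mem_singleton _)
        have hne : u ≠ v := huv.ne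
        refine ⟨![u, v], ?_, ?_, ?_⟩
        · intro a b hab
          fin_cases a <;> fin_cases b <;> simp_all
        · intro a b
          fin_cases a <;> fin_cases b <;> simp [huv, huv.symm]
        · intro a b d
          have e1 : ¬ Cyc a b d := by
            unfold Cyc
            simp only [Fin.lt_def]
            omega
          have e2 : ¬ Cyc (c ((![u, v] : Fin 2 → V) a)) (c ((![u, v] : Fin 2 → V) b))
              (c ((![u, v] : Fin 2 → V) d)) := by
            have h3 : a = b ∨ b = d ∨ a = d := by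
              fin_cases a <;> fin_cases b <;> fin_cases d <;> simp
            unfold Cyc
            simp only [Fin.lt_def]
            rcases h3 with rfl | rfl | rfl <;> omega
          exact iff_of_false e1 e2
      exact ⟨⟨fun _ => 0, fun {u v} h => absurd h (hno u v)⟩⟩

end Pool.Agent.Results.MP_c7ad22_co.OnlyEdgeless
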